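import Pool.Agent.W5h18.EP.One

/-!
# The radical of the denominator of `m y`
-/

set_option autoImplicit false

namespace Pool.Agent.W5h18.LS

open Filter Matrix Pool.Agent.W5h18.EP
open Pool.Agent.Results.MP_4d5ce1_nt.EveryPoint (Ball act hgt)

theorem sum_log_le (n : ℕ) (hn : n ≠ 0) : ∑ p ∈ n.primeFactors, Real.log (p : ℝ) ≤ Real.log n := by
  have h1 : Real.log ((∏ p ∈ n.primeFactors, p : ℕ) : ℝ) = ∑ p ∈ n.primeFactors, Real.log (p : ℝ) := by
    rw [Nat.cast_prod, Real.log_prod]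
    intro p hp
    exact_mod_cast (Nat.prime_of_mem_primeFactors hp).ne_zero
  rw [← h1]
  have h2 : ∏ p ∈ n.primeFactors, p ≤ n :=
    Nat.le_of_dvd (Nat.pos_of_ne_zero hn) (Nat.prod_primeFactors_dvd n)
  refine Real.log_le_log ?_ (by exact_mod_cast h2)
  exact_mod_cast Finset.prod_pos fun p hp => (Nat.prime_of_mem_primeFactors hp).pos

theorem den_bound {A η κ : ℝ} {D : ℕ} {y : ℤ × ℤ} {m : Matrix (Fin 2) (Fin 2) ℤ}
    (hA : 0 ≤ A) (hκ : 0 ≤ κ) (hη : 4 * κ ≤ η)
    (hl2 : Real.log 2 ≤ Real.log D) (hlη : 2 * Real.log 2 ≤ η * Real.log D)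
    (hy : IsCoprime y.1 y.2) (h1 : η * Real.log D < hgt y)
    (h2 : hgt y ≤ Real.log 2 + (A + 1) * Real.log D)
    (hG : OneGood (1 / 2) η A D y) (hm : m.det ≠ 0)
    (hmb : ∀ i j, Real.log (m i j).natAbs ≤ κ * Real.log D) :
    m 1 0 * y.1 + m 1 1 * y.2 ≠ 0 ∧
    Real.log ((((m 0 0 * y.1 + m 0 1 * y.2 : ℤ) : ℚ) /
        ((m 1 0 * y.1 + m 1 1 * y.2 : ℤ) : ℚ)).den : ℝ) ≤
      6 * (A + 2) * ∑ p ∈ (((m 0 0 * y.1 + m 0 1 * y.2 : ℤ) : ℚ) /
        ((m 1 0 * y.1 + m 1 1 * y.2 : ℤ) : ℚ)).den.primeFactors, Real.log (p : ℝ) ∧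
    η * Real.log D ≤ 2 * (A + 2) * Real.log ((((m 0 0 * y.1 + m 0 1 * y.2 : ℤ) : ℚ) /
        ((m 1 0 * y.1 + m 1 1 * y.2 : ℤ) : ℚ)).den : ℝ) := by
  obtain ⟨L, hL⟩ : ∃ L, L = Real.log (D : ℝ) := ⟨_, rfl⟩
  have hlog2 : 0 < Real.log 2 := Real.log_pos (by norm_num)
  simp only [← hL] at hl2 hlη h1 h2 hmb ⊢
  have hL0 : 0 < L := lt_of_lt_of_le hlog2 hl2
  obtain ⟨H, hH⟩ : ∃ H, H = hgt y := ⟨_, rfl⟩
  rw [← hH] at h1 h2
  set u : ℤ := m 0 0 * y.1 + m 0 1 * y.2 with hu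
  set v : ℤ := m 1 0 * y.1 + m 1 1 * y.2 with hv
  set r : ℚ := (u : ℚ) / (v : ℚ) with hr
  have hdet : m.det = m 0 0 * m 1 1 - m 0 1 * m 1 0 := Matrix.det_fin_two m
  -- the row
  set h : ℕ := Int.gcd (m 1 0) (m 1 1) with hh
  have hh0 : h ≠ 0 := by
    intro h0
    rw [hh, Int.gcd_eq_zero_iff] at h0
    apply hm
    rw [hdet, h0.1, h0.2]
    ring
  obtain ⟨c, hc⟩ : (h : ℤ) ∣ m 1 0 := Int.gcd_dvd_left _ _
  obtain ⟨d, hd⟩ : (h : ℤ) ∣ m 1 1 := Int.gcd_dvd_right _ _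
  have hhz : (h : ℤ) ≠ 0 := by exact_mod_cast hh0
  have hcop : IsCoprime c d := by
    have e := Int.gcd_eq_gcd_ab (m 1 0) (m 1 1)
    rw [← hh, hc, hd] at e
    refine ⟨Int.gcdA (h * c) (h * d), Int.gcdB (h * c) (h * d), ?_⟩
    have e2 : (h : ℤ) * (Int.gcdA (h * c) (h * d) * c + Int.gcdB (h * c) (h * d) * d) = h * 1 := by
      rw [mul_one]
      conv_rhs => rw [e]
      ring
    exact mul_left_cancel₀ hhz e2
  have hβcop : IsCoprime (-d, c).1 (-d, c).2 := hcop.symm.neg_left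
  have hcm : c.natAbs ≤ (m 1 0).natAbs := by
    rw [hc, Int.natAbs_mul, Int.natAbs_natCast]
    exact Nat.le_mul_of_pos_left _ (Nat.pos_of_ne_zero hh0)
  have hdm : d.natAbs ≤ (m 1 1).natAbs := by
    rw [hd, Int.natAbs_mul, Int.natAbs_natCast]
    exact Nat.le_mul_of_pos_left _ (Nat.pos_of_ne_zero hh0)
  have hlog_nat : ∀ a b : ℕ, a ≤ b → Real.log a ≤ Real.log b := by
    intro a b hab
    rcases Nat.eq_zero_or_pos a with h0 | h0
    · rw [h0, Nat.cast_zero, Real.log_zero]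
      exact Real.log_natCast_nonneg b
    · exact Real.log_le_log (by exact_mod_cast h0) (by exact_mod_cast hab)
  have hκL : 0 ≤ κ * L := mul_nonneg hκ hL0.le
  have hβh : hgt (-d, c) ≤ η * L := by
    have e1 : hgt (-d, c) = Real.log ((max (-d).natAbs c.natAbs : ℕ) : ℝ) := rfl
    rw [e1, Int.natAbs_neg]
    have e3 : κ * L ≤ η * L := mul_le_mul_of_nonneg_right (by linarith) hL0.le
    rcases max_choice d.natAbs c.natAbs with e | e
    · rw [e]
      exact ((hlog_nat _ _ hdm).trans (hmb 1 1)).trans e3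
    · rw [e]
      exact ((hlog_nat _ _ hcm).trans (hmb 1 0)).trans e3
  -- the determinant
  have hent : ∀ i j, ((m i j).natAbs : ℝ) ≤ Real.exp (κ * L) := by
    intro i j
    rcases Nat.eq_zero_or_pos (m i j).natAbs with h0 | h0
    · rw [h0, Nat.cast_zero]
      exact (Real.exp_pos _).le
    · rw [← Real.log_le_iff_le_exp (by exact_mod_cast h0)]
      exact hmb i j
  have hdetn : m.det.natAbs ≠ 0 := Int.natAbs_ne_zero.2 hm
  have hdetle : Real.log (m.det.natAbs : ℝ) ≤ Real.log 2 + 2 * (κ * L) := by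
    have e1 : m.det.natAbs ≤ (m 0 0).natAbs * (m 1 1).natAbs + (m 0 1).natAbs * (m 1 0).natAbs := by
      rw [hdet]
      have := Int.natAbs_sub_le (m 0 0 * m 1 1) (m 0 1 * m 1 0)
      rwa [Int.natAbs_mul, Int.natAbs_mul] at this
    have e2 : (m.det.natAbs : ℝ) ≤ 2 * Real.exp (2 * (κ * L)) := by
      have e3 : (m.det.natAbs : ℝ) ≤ ((m 0 0).natAbs : ℝ) * (m 1 1).natAbs +
          ((m 0 1).natAbs : ℝ) * (m 1 0).natAbs := by exact_mod_cast e1
      have e4 : ((m 0 0).natAbs : ℝ) * (m 1 1).natAbs ≤ Real.exp (κ * L) * Real.exp (κ * L) :=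
        mul_le_mul (hent 0 0) (hent 1 1) (Nat.cast_nonneg _) (Real.exp_pos _).le
      have e5 : ((m 0 1).natAbs : ℝ) * (m 1 0).natAbs ≤ Real.exp (κ * L) * Real.exp (κ * L) :=
        mul_le_mul (hent 0 1) (hent 1 0) (Nat.cast_nonneg _) (Real.exp_pos _).le
      have e6 : Real.exp (κ * L) * Real.exp (κ * L) = Real.exp (2 * (κ * L)) := by
        rw [← Real.exp_add]
        congr 1
        ring
      rw [e6] at e4 e5
      linarith
    have e7 := Real.log_le_log (by exact_mod_cast Nat.pos_of_ne_zero hdetn) e2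
    rwa [Real.log_mul (by norm_num) (Real.exp_pos _).ne', Real.log_exp] at e7
  set T : Finset ℕ := m.det.natAbs.primeFactors with hT
  have hTs : ∑ p ∈ T, Real.log (p : ℝ) ≤ η * L := by
    refine (sum_log_le _ hdetn).trans (hdetle.trans ?_)
    have e1 : 4 * (κ * L) ≤ η * L := by
      rw [← mul_assoc]
      exact mul_le_mul_of_nonneg_right hη hL0.le
    linarith
  obtain ⟨g1, g2, -⟩ := hG (-d, c) T hβcop (by rw [← hL]; exact hβh) (by rw [← hL]; exact hTs)
  rw [← hL] at g2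
  have hform : v = h * (y.1 * (-d, c).2 - y.2 * (-d, c).1) := by
    rw [hv, hc, hd]
    ring
  have hv0 : v ≠ 0 := by
    rw [hform]
    exact mul_ne_zero hhz g1
  have hvn : v.natAbs ≠ 0 := Int.natAbs_ne_zero.2 hv0
  have hden : r.den ∣ v.natAbs := by
    have := Rat.den_dvd u v
    rw [Rat.divInt_eq_div] at this
    exact Int.natCast_dvd.1 this
  have hdenle : r.den ≤ v.natAbs := Nat.le_of_dvd (Nat.pos_of_ne_zero hvn) hden
  -- the primes
  have hsub : (y.1 * (-d, c).2 - y.2 * (-d, c).1).natAbs.primeFactors \ T ⊆ r.den.primeFactors := by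
    intro p hp
    rw [Finset.mem_sdiff] at hp
    have hpp : p.Prime := Nat.prime_of_mem_primeFactors hp.1
    have hpF : (p : ℤ) ∣ y.1 * (-d, c).2 - y.2 * (-d, c).1 :=
      Int.natCast_dvd.2 (Nat.dvd_of_mem_primeFactors hp.1)
    have hpv : (p : ℤ) ∣ v := by
      rw [hform]
      exact dvd_mul_of_dvd_right hpF _
    have hpdet : ¬ (p : ℤ) ∣ m.det := by
      intro hcon
      apply hp.2
      rw [hT, Nat.mem_primeFactors]
      exact ⟨hpp, Int.natCast_dvd.1 hcon, hdetn⟩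
    have hpZ : Prime (p : ℤ) := Nat.prime_iff_prime_int.mp hpp
    rw [Nat.mem_primeFactors]
    refine ⟨hpp, ?_, r.den_nz⟩
    have hcross : u * (r.den : ℤ) = r.num * v := by
      have e1 : (r.num : ℚ) / (r.den : ℚ) = u / v := by
        rw [Rat.num_div_den]
      have e2 : (r.den : ℚ) ≠ 0 := by exact_mod_cast r.den_nz
      have e3 : (v : ℚ) ≠ 0 := by exact_mod_cast hv0
      rw [div_eq_div_iff e2 e3] at e1
      have e4 : (r.num : ℚ) * v = u * (r.den : ℤ) := by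
        rw [e1]
        push_cast
        rfl
      have e5 : ((r.num * v : ℤ) : ℚ) = ((u * (r.den : ℤ) : ℤ) : ℚ) := by
        push_cast
        push_cast at e4
        exact e4
      exact (Int.cast_injective e5).symm
    have e1 : (p : ℤ) ∣ u * (r.den : ℤ) := by
      rw [hcross]
      exact dvd_mul_of_dvd_right hpv _
    rcases hpZ.dvd_or_dvd e1 with e2 | e2
    · exfalso
      have e3 : (p : ℤ) ∣ m.det * y.1 := by
        have e4 : m.det * y.1 = m 1 1 * u - m 0 1 * v := by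
          rw [hdet, hu, hv]
          ring
        rw [e4]
        exact dvd_sub (dvd_mul_of_dvd_right e2 _) (dvd_mul_of_dvd_right hpv _)
      have e5 : (p : ℤ) ∣ m.det * y.2 := by
        have e4 : m.det * y.2 = m 0 0 * v - m 1 0 * u := by
          rw [hdet, hu, hv]
          ring
        rw [e4]
        exact dvd_sub (dvd_mul_of_dvd_right hpv _) (dvd_mul_of_dvd_right e2 _)
      have e6 := (hpZ.dvd_or_dvd e3).resolve_left hpdet
      have e7 := (hpZ.dvd_or_dvd e5).resolve_left hpdet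
      exact hpZ.not_isUnit (hy.isUnit_of_dvd' e6 e7)
    · exact_mod_cast e2
  have hsum : ∑ p ∈ (y.1 * (-d, c).2 - y.2 * (-d, c).1).natAbs.primeFactors \ T,
      Real.log (p : ℝ) ≤ ∑ p ∈ r.den.primeFactors, Real.log (p : ℝ) :=
    Finset.sum_le_sum_of_subset_of_nonneg hsub fun p _ _ => Real.log_natCast_nonneg p
  -- the size of v
  have hvle : Real.log (v.natAbs : ℝ) ≤ Real.log 2 + κ * L + H := by
    have e1 : v.natAbs ≤ (m 1 0).natAbs * y.1.natAbs + (m 1 1).natAbs * y.2.natAbs := by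
      rw [hv]
      have := Int.natAbs_add_le (m 1 0 * y.1) (m 1 1 * y.2)
      rwa [Int.natAbs_mul, Int.natAbs_mul] at this
    set N : ℕ := max y.1.natAbs y.2.natAbs with hN
    have hHN : H = Real.log (N : ℝ) := hH
    have hN1 : (1 : ℝ) ≤ N := by
      have : N ≠ 0 := by
        intro h0
        rw [hHN, h0, Nat.cast_zero, Real.log_zero] at h1
        have e3 : 0 ≤ η * L := le_trans (by linarith) hlη
        linarith
      exact_mod_cast Nat.one_le_iff_ne_zero.2 this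
    have e2 : (v.natAbs : ℝ) ≤ 2 * (Real.exp (κ * L) * N) := by
      have e3 : (v.natAbs : ℝ) ≤ ((m 1 0).natAbs : ℝ) * y.1.natAbs +
          ((m 1 1).natAbs : ℝ) * y.2.natAbs := by exact_mod_cast e1
      have e4 : ((m 1 0).natAbs : ℝ) * y.1.natAbs ≤ Real.exp (κ * L) * N :=
        mul_le_mul (hent 1 0) (by exact_mod_cast le_max_left _ _) (Nat.cast_nonneg _)
          (Real.exp_pos _).le
      have e5 : ((m 1 1).natAbs : ℝ) * y.2.natAbs ≤ Real.exp (κ * L) * N :=
        mul_le_mul (hent 1 1) (by exact_mod_cast le_max_right _ _) (Nat.cast_nonneg _)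
          (Real.exp_pos _).le
      linarith
    have e7 := Real.log_le_log (by exact_mod_cast Nat.pos_of_ne_zero hvn) e2
    rw [Real.log_mul (by norm_num) (by positivity), Real.log_mul (Real.exp_pos _).ne'
      (by positivity), Real.log_exp, ← hHN] at e7
    linarith
  obtain ⟨R, hR⟩ : ∃ R, R = ∑ p ∈ r.den.primeFactors, Real.log (p : ℝ) := ⟨_, rfl⟩
  rw [← hR] at hsum ⊢
  have hld : Real.log (r.den : ℝ) ≤ Real.log (v.natAbs : ℝ) := hlog_nat _ _ hdenle
  have hRd : R ≤ Real.log (r.den : ℝ) := by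
    rw [hR]
    exact sum_log_le _ r.den_nz
  rw [← hH] at g2
  have hA2 : 0 < A + 2 := by linarith
  have hH2 : H ≤ (A + 2) * L := by
    have : (A + 2) * L = (A + 1) * L + L := by ring
    linarith
  have hH0 : 0 ≤ H := by linarith
  have hmin : H / (A + 2) ≤ min H (4 * L) := by
    refine le_min ?_ ?_
    · rw [div_le_iff₀ hA2]
      nlinarith
    · rw [div_le_iff₀ hA2]
      nlinarith
  have hlow : H / (A + 2) ≤ 2 * R := by
    have : (1 - 1 / 2) * min H (4 * L) ≤ R := g2.trans hsum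
    linarith
  have hlow' : H ≤ 2 * (A + 2) * R := by
    rw [div_le_iff₀ hA2] at hlow
    linarith
  have hκη : κ * L ≤ η * L / 4 := by
    have e1 : 4 * (κ * L) ≤ η * L := by
      rw [← mul_assoc]
      exact mul_le_mul_of_nonneg_right hη hL0.le
    linarith
  refine ⟨hv0, ?_, ?_⟩
  · have e1 : Real.log (r.den : ℝ) ≤ 3 * H := by linarith
    calc Real.log (r.den : ℝ) ≤ 3 * H := e1
      _ ≤ 3 * (2 * (A + 2) * R) := by linarith
      _ = 6 * (A + 2) * R := by ring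
  · have e1 : 2 * (A + 2) * R ≤ 2 * (A + 2) * Real.log (r.den : ℝ) :=
      mul_le_mul_of_nonneg_left hRd (by linarith)
    linarith

end Pool.Agent.W5h18.LS
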