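import Pool.Agent.W5h37.LST.Szp

/-!
# The Szpiro-type condition for a rational invariant whose denominator is bounded by a power of its
radical
-/

set_option autoImplicit false
set_option linter.unusedSectionVars false

namespace Pool.Agent.W5h18.LS

open NumberField IsDedekindDomain Finset Pool.Agent.H691R3 Pool.Agent.W223.AK Pool.Agent.Y733.LS
open Height Pool.Agent.TH942 Pool.Agent.TH910.LS Pool.Agent.W5h37.LST

section One

variable {K : Type} [Field K] [NumberField K]

theorem exists_place {p : ℕ} (hp : p.Prime) : ∃ v : Pr K, fv v (p : K) < 1 := by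
  by_contra hcon
  push Not at hcon
  have h := sum_eq (K := K) hp.ne_zero ∅ (fun v hv => by
    exact absurd (le_antisymm (fv_nat_le v p) (hcon v)) hv)
  rw [Finset.sum_empty] at h
  have hn : (0 : ℝ) < Module.finrank ℚ K := by exact_mod_cast Module.finrank_pos
  have hl : 0 < Real.log (p : ℝ) := Real.log_pos (by exact_mod_cast hp.one_lt)
  have := mul_pos hn hl
  linarith

theorem pole_of {r : ℚ} {p : ℕ} (hp : p.Prime) (hpr : p ∣ r.den) {v : Pr K}
    (hv : fv v (p : K) < 1) : 1 < fv v (r : K) := by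
  have hr0 : r ≠ 0 := by
    rintro rfl
    exact hp.one_lt.ne' (Nat.dvd_one.1 hpr)
  have hden0 : ((r.den : ℕ) : K) ≠ 0 := Nat.cast_ne_zero.2 r.den_nz
  have hpos : 0 < fv v ((r.den : ℕ) : K) := (fv v).pos hden0
  have h1 : fv v (r : K) = fv v ((r.num.natAbs : ℕ) : K) / fv v ((r.den : ℕ) : K) := by
    have h2 : (r : K) = (r.num : K) / (r.den : K) := Rat.cast_def r
    rw [h2, map_div₀]
    congr 1
    rcases Int.natAbs_eq r.num with h | h
    · conv_lhs => rw [h]
      rw [Int.cast_natCast]
    · conv_lhs => rw [h]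
      rw [Int.cast_neg, Int.cast_natCast, map_neg_eq_map]
  have h3 : fv v ((r.num.natAbs : ℕ) : K) = 1 :=
    fv_coprime hv (Nat.Coprime.coprime_dvd_right hpr r.reduced)
  have h4 : fv v ((r.den : ℕ) : K) < 1 := by
    obtain ⟨c, hc⟩ := hpr
    rw [hc, Nat.cast_mul, map_mul]
    calc _ ≤ fv v (p : K) * 1 := mul_le_mul_of_nonneg_left (fv_nat_le v c) ((fv v).nonneg _)
      _ < 1 := by rw [mul_one]; exact hv
  rw [h1, h3, one_lt_div hpos]
  exact h4

/-- the primes of the denominator and the poles -/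
theorem rad_le (r : ℚ) (V : Finset (Pr K)) (hV : ∀ v, 1 < fv v (r : K) → v ∈ V) :
    ∑ p ∈ r.den.primeFactors, Real.log (p : ℝ) ≤ ∑ v ∈ V, Real.log (Nv v) := by
  classical
  have hex : ∀ p : ℕ, ∃ v : Pr K, p.Prime → fv v (p : K) < 1 := by
    intro p
    by_cases hp : p.Prime
    · obtain ⟨v, hv⟩ := exists_place (K := K) hp
      exact ⟨v, fun _ => hv⟩
    · obtain ⟨v, -⟩ := exists_place (K := K) Nat.prime_two
      exact ⟨v, fun h => absurd h hp⟩
  choose pl hpl using hex
  have hinj : Set.InjOn pl (r.den.primeFactors : Set ℕ) := by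
    intro p hp q hq hpq
    have hp' := Nat.prime_of_mem_primeFactors (Finset.mem_coe.1 hp)
    have hq' := Nat.prime_of_mem_primeFactors (Finset.mem_coe.1 hq)
    by_contra hne
    have h1 := fv_coprime (hpl p hp') ((Nat.coprime_primes hq' hp').2 (Ne.symm hne))
    have h2 := hpl q hq'
    rw [← hpq, h1] at h2
    exact lt_irrefl _ h2
  calc ∑ p ∈ r.den.primeFactors, Real.log (p : ℝ) ≤
      ∑ p ∈ r.den.primeFactors, Real.log (Nv (pl p)) :=
        Finset.sum_le_sum fun p hp => log_le_Nv (Nat.prime_of_mem_primeFactors hp)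
          (hpl p (Nat.prime_of_mem_primeFactors hp))
    _ = ∑ v ∈ r.den.primeFactors.image pl, Real.log (Nv v) :=
        (Finset.sum_image (f := fun v => Real.log (Nv v)) hinj).symm
    _ ≤ ∑ v ∈ V, Real.log (Nv v) := by
        refine Finset.sum_le_sum_of_subset_of_nonneg ?_ fun v _ _ => (log_Nv_pos v).le
        intro v hv
        obtain ⟨p, hp, rfl⟩ := Finset.mem_image.1 hv
        have hp' := Nat.prime_of_mem_primeFactors hp
        exact hV _ (pole_of hp' (Nat.dvd_of_mem_primeFactors hp) (hpl p hp'))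

theorem poles_le (r : ℚ) (S : Finset (Pr K)) (hS : ∀ v ∈ S, 1 < fv v (r : K)) :
    ∑ v ∈ S, Real.log (fv v (r : K)) ≤ Module.finrank ℚ K * Real.log r.den := by
  refine (Finset.sum_le_sum fun v hv => (fv_rat v r (hS v hv)).1).trans ?_
  exact sum_le r.den_nz S

end One

theorem szpiroLe_rad {D : ℕ} {σ : ℝ} (hσ : 0 ≤ σ) {r : ℚ}
    (hr : Real.log r.den ≤ σ * ∑ p ∈ r.den.primeFactors, Real.log (p : ℝ)) {δ : ℝ} (hδ : 0 ≤ δ)
    {K : Type} [Field K] [NumberField K] (hK : Module.finrank ℚ K ≤ D) (a b : 𝓞 K)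
    (hab : 4 * (a : K) ^ 3 + 27 * (b : K) ^ 2 ≠ 0) (hj : jinv (a : K) b = (r : K))
    (L : Type) [Field L] [NumberField L] [Algebra K L] :
    Y725.LS.SzpiroLe (σ * D) δ 0 1 a b L := by
  classical
  have hfin : {v : Pr K | 1 < fv v (r : K)}.Finite := by
    refine (ne_sets (one_ne_zero) (one_ne_zero) (r : K)).subset ?_
    intro v hv
    exact Or.inr (Or.inr hv)
  set V : Finset (Pr K) := hfin.toFinset with hV
  have hmemV : ∀ v, v ∈ V ↔ 1 < fv v (r : K) := by
    intro v
    rw [hV, Set.Finite.mem_toFinset]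
    rfl
  choose up hup using (fun v : FinitePlace K => Y725.LS.exists_above (L := L) v)
  set F : Finset (FinitePlace L) := V.image fun v => up (FinitePlace.mk v) with hF
  have hinj : Function.Injective fun v : Pr K => up (FinitePlace.mk v) := by
    intro v w h
    have h1 := congrArg (Y725.LS.below K) h
    simp only at h1
    rw [hup, hup] at h1
    exact FinitePlace.mk_eq_iff.mp h1
  have hab' : 4 * (algebraMap K L a) ^ 3 + 27 * (algebraMap K L b) ^ 2 ≠ 0 := by
    have h1 : algebraMap K L (4 * (a : K) ^ 3 + 27 * (b : K) ^ 2) ≠ 0 := by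
      rw [ne_eq, map_eq_zero]
      exact hab
    rw [map_add, map_mul, map_mul, map_pow, map_pow, map_ofNat, map_ofNat] at h1
    exact h1
  have hell : (sw (algebraMap K L (a : K)) (algebraMap K L (b : K))).IsElliptic := sw_ell hab'
  have hjj : (sw (algebraMap K L (a : K)) (algebraMap K L (b : K))).j =
      algebraMap K L (r : K) := by
    rw [jinv_eq _ _ hell, ← hj]
    unfold jinv
    simp [map_ofNat]
  refine ⟨∅, F, le_rfl, ?_, ?_⟩
  · intro w hw
    left
    intro hgood
    rw [hF, Finset.mem_image] at hw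
    obtain ⟨v, hv, rfl⟩ := hw
    rw [hmemV] at hv
    have hna : Y733.LS.Na (up (FinitePlace.mk v)).val := by
      have h1 := fv_Na (K := L) (up (FinitePlace.mk v)).maximalIdeal
      have h2 : fv (up (FinitePlace.mk v)).maximalIdeal = (up (FinitePlace.mk v)).val := by
        unfold fv
        rw [FinitePlace.mk_maximalIdeal]
      rwa [h2] at h1
    have h1 := j_le_one hna _ hgood
    rw [hjj, Y725.LS.ext_apply, hup] at h1
    have h2 : 1 < (FinitePlace.mk v).val (r : K) ^ Y725.LS.ldeg K (up (FinitePlace.mk v)) :=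
      one_lt_pow₀ hv (Y725.LS.ldeg_pos K _).ne'
    linarith
  · intro S hS
    have hS' : ∀ v ∈ S.image (fun v : FinitePlace K => v.maximalIdeal), 1 < fv v (r : K) := by
      intro v hv
      obtain ⟨w, hw, rfl⟩ := Finset.mem_image.1 hv
      have h1 := (hS w hw).2.2
      rw [hj] at h1
      unfold fv
      rw [FinitePlace.mk_maximalIdeal]
      exact h1
    have h1 := poles_le r _ hS'
    have h2 : ∑ v ∈ S, Real.log (v.val (jinv (a : K) b)) =
        ∑ v ∈ S.image (fun v : FinitePlace K => v.maximalIdeal), Real.log (fv v (r : K)) := by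
      rw [Finset.sum_image (fun x _ y _ h => FinitePlace.maximalIdeal_injective h)]
      refine Finset.sum_congr rfl fun v _ => ?_
      rw [hj]
      unfold fv
      rw [FinitePlace.mk_maximalIdeal]
    rw [h2]
    refine h1.trans ?_
    have h3 : ∑ p ∈ r.den.primeFactors, Real.log (p : ℝ) ≤
        ∑ w ∈ F, Real.log (Ideal.absNorm w.maximalIdeal.asIdeal) := by
      rw [hF, Finset.sum_image (fun x _ y _ h => hinj h)]
      refine (rad_le r V fun v hv => (hmemV v).2 hv).trans ?_
      refine Finset.sum_le_sum fun v _ => ?_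
      have h4 := log_Nm_below (K := K) (up (FinitePlace.mk v))
      rw [hup, FinitePlace.maximalIdeal_mk] at h4
      exact h4
    have hKD : (Module.finrank ℚ K : ℝ) ≤ D := by exact_mod_cast hK
    have hn0 : (0 : ℝ) ≤ Module.finrank ℚ K := Nat.cast_nonneg _
    have hR0 : 0 ≤ ∑ p ∈ r.den.primeFactors, Real.log (p : ℝ) :=
      Finset.sum_nonneg fun p _ => Real.log_natCast_nonneg p
    have hδ' : 0 ≤ δ * logHeight₁ (jinv (a : K) b) := mul_nonneg hδ (zero_le_logHeight₁ _)
    calc (Module.finrank ℚ K : ℝ) * Real.log r.den ≤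
        Module.finrank ℚ K * (σ * ∑ p ∈ r.den.primeFactors, Real.log (p : ℝ)) :=
          mul_le_mul_of_nonneg_left hr hn0
      _ ≤ D * (σ * ∑ w ∈ F, Real.log (Ideal.absNorm w.maximalIdeal.asIdeal)) := by
          refine mul_le_mul hKD (mul_le_mul_of_nonneg_left h3 hσ) (mul_nonneg hσ hR0)
            (Nat.cast_nonneg _)
      _ = σ * D * ∑ w ∈ F, Real.log (Ideal.absNorm w.maximalIdeal.asIdeal) := by ring
      _ ≤ _ := le_add_of_nonneg_right hδ'

theorem ev_log_ge (c : ℝ) : ∀ᶠ X : ℕ in Filter.atTop, c ≤ Real.log X := by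
  have h : Filter.Tendsto (fun X : ℕ => Real.log (X : ℝ)) Filter.atTop Filter.atTop :=
    Real.tendsto_log_atTop.comp tendsto_natCast_atTop_atTop
  exact h.eventually_ge_atTop c

theorem absH_rat {K : Type} [Field K] [NumberField K] (r : ℚ) :
    absH (r : K) = Real.log ((max r.num.natAbs r.den : ℕ) : ℝ) := by
  have hn : (0 : ℝ) < Module.finrank ℚ K := by exact_mod_cast Module.finrank_pos
  unfold absH
  rw [ht_eq_log, ht_rat]
  field_simp

end Pool.Agent.W5h18.LS
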